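import Mathlib

namespace Pool.Agent.H.MP_14d743_an

open Filter Topology Set InnerProductSpace

section Baire
variable {E X : Type*} [NormedAddCommGroup E] [NormedSpace ℂ E] [NormedAddCommGroup X]
  [NormedSpace ℂ X]

lemma avoid (φ : E →L[ℂ] ℂ) (e₀ : E) {δ : ℝ} (hδ : 0 < δ) (z : ℂ)
    (h : ∀ e, ‖e - e₀‖ < δ → φ e ≠ z) : δ * ‖φ‖ ≤ ‖φ e₀‖ + ‖z‖ := by
  refine le_trans ?_ (norm_sub_le (φ e₀) z)
  by_contra hc
  rw [not_le, ← div_lt_iff₀' hδ] at hc
  obtain ⟨u, h1, h2⟩ := φ.exists_lt_apply_of_lt_opNorm hc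
  have hu : 0 < ‖φ u‖ := lt_of_le_of_lt (by positivity) h2
  refine h (e₀ + ((z - φ e₀) / φ u) • u) ?_ ?_
  · rw [add_sub_cancel_left, norm_smul, norm_div, norm_sub_rev]
    rw [div_lt_iff₀' hδ, ← div_lt_iff₀ hu] at h2
    exact (mul_le_of_le_one_right (by positivity) h1.le).trans_lt h2
  · rw [map_add, map_smul, smul_eq_mul, div_mul_cancel₀ _ (norm_pos_iff.1 hu)]
    ring

theorem baire [CompleteSpace E] (A : ℕ → E →L[ℂ] X)
    (h : ∀ x (f : X →L[ℂ] ℂ), ¬ DenseRange fun n => f (A n x)) :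
    ∃ (x₀ : E) (f₀ : X →L[ℂ] ℂ) (δ C : ℝ), 0 < δ ∧ 0 < C ∧
      ∀ x, ‖x - x₀‖ < δ → ∀ n, ‖A n‖ ≤ C * (‖f₀ (A n x)‖ + 1) := by
  set d := TopologicalSpace.denseSeq ℂ
  let F : ℕ × ℕ → Set (E × (X →L[ℂ] ℂ)) := fun k =>
    {q | ∀ n, 1 / ((k.2 : ℝ) + 1) ≤ ‖q.2 (A n q.1) - d k.1‖}
  have hF : ∀ k, IsClosed (F k) := fun k => by
    simp only [F, ofPred_forall]
    exact isClosed_iInter fun n => isClosed_le continuous_const (by fun_prop)
  have hU : ⋃ k, F k = univ := by
    refine eq_univ_of_forall fun ⟨x, f⟩ => ?_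
    have := h x f
    rw [Metric.denseRange_iff] at this
    push Not at this
    obtain ⟨z, r, hr, hz⟩ := this
    obtain ⟨k, hk⟩ := Metric.denseRange_iff.1 (TopologicalSpace.denseRange_denseSeq ℂ) z (r / 2)
      (by positivity)
    obtain ⟨m, hm⟩ := exists_nat_one_div_lt (half_pos hr)
    refine mem_iUnion.2 ⟨(k, m), fun n => ?_⟩
    have := hz n
    have := dist_triangle_right z (f (A n x)) (d k)
    rw [← dist_eq_norm]
    change 1 / ((m : ℝ) + 1) ≤ dist (f (A n x)) (d k)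
    linarith
  obtain ⟨k, ⟨x₀, f₀⟩, hk⟩ := nonempty_interior_of_iUnion_of_closed hF hU
  obtain ⟨δ, hδ, hb⟩ := Metric.mem_nhds_iff.1 (mem_interior_iff_mem_nhds.1 hk)
  set z := d k.1
  have ne : ∀ x f n, ‖x - x₀‖ < δ → ‖f - f₀‖ < δ → f (A n x) ≠ z := by
    intro x f n h1 h2 e
    have : (x, f) ∈ Metric.ball (x₀, f₀) δ := by
      rw [Metric.mem_ball, Prod.dist_eq, dist_eq_norm, dist_eq_norm]
      exact max_lt h1 h2
    have := hb this n
    simp only at this
    rw [e, sub_self, norm_zero] at this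
    exact absurd this (not_le.2 (by positivity))
  set D := (‖f₀‖ + δ) * (δ⁻¹ * (1 + ‖z‖)) + ‖z‖
  refine ⟨x₀, f₀, δ / 2, (δ / 2)⁻¹ * (2 * ((δ / 2)⁻¹ * D)), by positivity, by positivity,
    fun x hx n => ?_⟩
  set t := ‖f₀ (A n x)‖
  have ht : 0 ≤ t := norm_nonneg _
  have a1 : ‖A n x‖ ≤ δ⁻¹ * (1 + ‖z‖) * (t + 1) := by
    have := avoid (NormedSpace.inclusionInDoubleDualLi ℂ (A n x)) f₀ hδ z fun f hf =>
      ne x f n (by linarith) hf
    rw [LinearIsometry.norm_map] at this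
    rw [mul_assoc, le_inv_mul_iff₀ hδ]
    refine this.trans ?_
    change t + ‖z‖ ≤ _
    nlinarith [norm_nonneg z]
  have a2 : ∀ f, ‖f - f₀‖ < δ → ∀ y, ‖f (A n y)‖ ≤ (δ / 2)⁻¹ * D * (t + 1) * ‖y‖ := by
    intro f hf y
    refine (f ∘L A n).le_of_opNorm_le ?_ y
    have := avoid (f ∘L A n) x (half_pos hδ) z fun e he => ne e f n (by
      have := norm_sub_le_norm_sub_add_norm_sub e x x₀
      linarith) hf
    rw [mul_assoc, le_inv_mul_iff₀ (half_pos hδ)]
    refine this.trans ?_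
    have b1 : ‖f‖ ≤ ‖f₀‖ + δ := by
      have := norm_le_insert' f f₀
      linarith
    have b2 : ‖f (A n x)‖ ≤ (‖f₀‖ + δ) * (δ⁻¹ * (1 + ‖z‖) * (t + 1)) :=
      (f.le_opNorm _).trans (mul_le_mul b1 a1 (norm_nonneg _) (by positivity))
    change ‖f (A n x)‖ + ‖z‖ ≤ _
    simp only [D]
    nlinarith [norm_nonneg z]
  refine ContinuousLinearMap.opNorm_le_bound _ (by positivity) fun y => ?_
  obtain ⟨g, g1, g2⟩ := exists_dual_vector'' ℂ (A n y)
  have b1 := a2 (f₀ + ((δ / 2 : ℝ) : ℂ) • g) (by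
    rw [add_sub_cancel_left, norm_smul, Complex.norm_real, Real.norm_of_nonneg (by positivity)]
    nlinarith) y
  have b2 := a2 f₀ (by simpa using hδ) y
  have b3 := norm_le_add_norm_add' (f₀ (A n y)) (((δ / 2 : ℝ) : ℂ) • g (A n y))
  rw [norm_smul, Complex.norm_real, Real.norm_of_nonneg (by positivity), g2] at b3
  simp only [Complex.coe_algebraMap, Complex.norm_real, norm_norm] at b3
  rw [add_apply, smul_apply, g2] at b1
  simp only [Complex.coe_algebraMap] at b1
  rw [mul_assoc, mul_assoc, le_inv_mul_iff₀ (half_pos hδ)]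
  linarith

end Baire

section Weights
open Finset

theorem weights (a : ℕ → ℝ) (h1 : ∀ n, 1 ≤ a n) (hs : ∀ m n, a (m + n) ≤ a m * a n)
    (hu : ∀ M, ∃ n, M < a n) : ∃ ρ : ℝ, 1 ≤ ρ ∧ ∀ ε : ℝ, 0 < ε → ∃ N, 1 ≤ N ∧
      (a N / ρ ^ N) ^ 2 ≤ ε * ∑ n ∈ range N, (a n / ρ ^ n) ^ 2 ∧
      ∑ n ∈ range N, (1 / ρ ^ n) ^ 2 ≤ ε * ∑ n ∈ range N, (a n / ρ ^ n) ^ 2 := by
  have h0 : ∀ n, 0 < a n := fun n => one_pos.trans_le (h1 n)
  have sa : Subadditive fun n => Real.log (a n) := fun m n => by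
    rw [← Real.log_mul (h0 m).ne' (h0 n).ne']
    exact Real.log_le_log (h0 _) (hs m n)
  have nn : ∀ n : ℕ, 0 ≤ Real.log (a n) / n := fun n =>
    div_nonneg (Real.log_nonneg (h1 n)) n.cast_nonneg
  have bb : BddBelow (Set.range fun n : ℕ => Real.log (a n) / n) :=
    ⟨0, by rintro _ ⟨n, rfl⟩; exact nn n⟩
  have L0 : 0 ≤ sa.lim := ge_of_tendsto' (sa.tendsto_lim bb) nn
  set ρ := Real.exp sa.lim
  have hρ : 1 ≤ ρ := Real.one_le_exp L0
  refine ⟨ρ, hρ, fun ε hε => ?_⟩
  have lo : ∀ n, 1 ≤ a n / ρ ^ n := fun n => by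
    rw [one_le_div (by positivity)]
    rcases Nat.eq_zero_or_pos n with rfl | hn
    · simpa using h1 0
    · have := sa.lim_le_div bb hn.ne'
      rw [le_div_iff₀' (by positivity)] at this
      rw [← Real.exp_nat_mul, ← Real.le_log_iff_exp_le (h0 n)]
      exact this
  have up : ∀ r : ℝ, 1 < r → ∀ᶠ n : ℕ in atTop, a n / ρ ^ n ≤ r ^ n := fun r hr => by
    filter_upwards [(sa.tendsto_lim bb).eventually
      (gt_mem_nhds (lt_add_of_pos_right _ (Real.log_pos hr))), eventually_gt_atTop 0] with n h hn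
    rw [div_lt_iff₀' (by positivity), Real.log_lt_iff_lt_exp (h0 n), Real.exp_nat_mul,
      Real.exp_add, Real.exp_log (by linarith), mul_pow] at h
    rw [div_le_iff₀' (by positivity)]
    exact h.le
  set w : ℕ → ℝ := fun n => (a n / ρ ^ n) ^ 2
  set W : ℕ → ℝ := fun N => ∑ n ∈ range N, w n
  set β : ℕ → ℝ := fun N => ∑ n ∈ range N, (1 / ρ ^ n) ^ 2
  have hW : ∀ N : ℕ, (N : ℝ) ≤ W N := fun N => by
    simpa using card_nsmul_le_sum (range N) w 1 fun n _ => one_le_pow₀ (lo n)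
  obtain ⟨N₁, hN₁⟩ := exists_nat_gt (1 / ε)
  have A : ∃ N₀, N₁ + 1 ≤ N₀ ∧ β N₀ ≤ ε * W N₀ := by
    rcases hρ.eq_or_lt with e | e
    · obtain ⟨n, hn⟩ := hu (1 / ε + ∑ i ∈ range N₁, a i)
      have p0 : 0 ≤ ∑ i ∈ range N₁, a i := sum_nonneg fun i _ => (h0 i).le
      have hn1 : N₁ ≤ n := by
        by_contra c
        have := single_le_sum (f := a) (fun i _ => (h0 i).le) (mem_range.2 (not_le.1 c))
        have : 0 < 1 / ε := by positivity
        linarith
      refine ⟨n + 1, by omega, ?_⟩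
      have e1 : β (n + 1) = (n + 1 : ℕ) := by simp [β, ← e]
      have e2 : W (n + 1) = ∑ i ∈ range (n + 1), a i ^ 2 := by simp [W, w, ← e]
      have e3 := sum_range_reflect (fun i => a i ^ 2) (n + 1)
      have e4 : ((n + 1 : ℕ) : ℝ) * (2 * a n) ≤
          ∑ i ∈ range (n + 1), (a i ^ 2 + a (n + 1 - 1 - i) ^ 2) := by
        have := card_nsmul_le_sum (range (n + 1)) (fun i => a i ^ 2 + a (n + 1 - 1 - i) ^ 2)
          (2 * a n) fun i hi => by
            have := hs i (n + 1 - 1 - i)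
            rw [show i + (n + 1 - 1 - i) = n by have := mem_range.1 hi; omega] at this
            nlinarith [sq_nonneg (a i - a (n + 1 - 1 - i))]
        simpa using this
      rw [sum_add_distrib, e3] at e4
      have e5 : 1 ≤ ε * a n := by
        rw [← div_le_iff₀' hε]; linarith
      rw [e1, e2]
      nlinarith [Nat.cast_nonneg (α := ℝ) (n + 1)]
    · have sm : Summable fun n : ℕ => (1 / ρ ^ n) ^ 2 := by
        refine (summable_geometric_of_lt_one (r := (1 / ρ) ^ 2) (by positivity)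
          (pow_lt_one₀ (by positivity) ((div_lt_one (by positivity)).2 e) two_ne_zero)).congr
          fun n => ?_
        rw [← pow_mul, mul_comm, pow_mul, one_div_pow]
      obtain ⟨N, hN⟩ := exists_nat_gt ((∑' n : ℕ, (1 / ρ ^ n) ^ 2) / ε)
      refine ⟨N + N₁ + 1, by omega, (sm.sum_le_tsum _ fun _ _ => by positivity).trans ?_⟩
      rw [div_lt_iff₀' hε] at hN
      refine hN.le.trans (mul_le_mul_of_nonneg_left (le_trans ?_ (hW _)) hε.le)
      exact_mod_cast (by omega : N ≤ N + N₁ + 1)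
  obtain ⟨N₀, hN₀, hβ⟩ := A
  by_contra hc
  push Not at hc
  have step : ∀ k, β (N₀ + k) ≤ ε * W (N₀ + k) ∧ (1 + ε) ^ k * W N₀ ≤ W (N₀ + k) ∧
      ε * W (N₀ + k) < w (N₀ + k) := by
    have c3 : ∀ N, 1 ≤ N → β N ≤ ε * W N → ε * W N < w N := fun N h1 h2 => by
      by_contra c
      exact absurd (hc N h1 (not_lt.1 c)) (not_lt.2 h2)
    intro k
    induction k with
    | zero => exact ⟨hβ, by simp, c3 _ (by omega) hβ⟩
    | succ k ih =>
      obtain ⟨i1, i2, i3⟩ := ih
      have e1 : W (N₀ + (k + 1)) = W (N₀ + k) + w (N₀ + k) := sum_range_succ _ _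
      have e2 : β (N₀ + (k + 1)) = β (N₀ + k) + (1 / ρ ^ (N₀ + k)) ^ 2 := sum_range_succ _ _
      have e3 : ((N₀ + k : ℕ) : ℝ) * (1 / ρ ^ (N₀ + k)) ^ 2 ≤ β (N₀ + k) := by
        have := card_nsmul_le_sum (range (N₀ + k)) (fun n => (1 / ρ ^ n) ^ 2)
          ((1 / ρ ^ (N₀ + k)) ^ 2) fun i hi => by
            gcongr
            exact (mem_range.1 hi).le
        rwa [card_range, nsmul_eq_mul] at this
      have e4 : 1 ≤ ε * ((N₀ + k : ℕ) : ℝ) := by
        rw [← div_le_iff₀' hε]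
        refine hN₁.le.trans ?_
        exact_mod_cast (by omega : N₁ ≤ N₀ + k)
      have e5 : (1 / ρ ^ (N₀ + k)) ^ 2 ≤ ε * β (N₀ + k) := by
        have : 0 ≤ (1 / ρ ^ (N₀ + k)) ^ 2 := by positivity
        nlinarith
      have j1 : β (N₀ + (k + 1)) ≤ ε * W (N₀ + (k + 1)) := by rw [e1, e2]; nlinarith
      refine ⟨j1, ?_, c3 _ (by omega) j1⟩
      rw [e1, pow_succ]
      nlinarith
  have hr : 1 < √(1 + ε / 2) := Real.lt_sqrt_of_sq_lt (by linarith)
  have t1 : Tendsto (fun k : ℕ => ((1 + ε / 2) / (1 + ε)) ^ k * (1 + ε / 2) ^ N₀) atTop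
      (𝓝 (0 * _)) := (tendsto_pow_atTop_nhds_zero_of_lt_one (by positivity)
        ((div_lt_one (by positivity)).2 (by linarith))).mul_const _
  rw [zero_mul] at t1
  obtain ⟨k, k1, k2⟩ := ((t1.eventually (gt_mem_nhds hε)).and
    ((tendsto_add_atTop_nat N₀).eventually (up _ hr))).exists
  obtain ⟨-, i2, i3⟩ := step k
  rw [add_comm k] at k2
  have k3 : w (N₀ + k) ≤ (1 + ε / 2) ^ (N₀ + k) := by
    calc w (N₀ + k) ≤ (√(1 + ε / 2) ^ (N₀ + k)) ^ 2 :=
          pow_le_pow_left₀ (zero_le_one.trans (lo _)) k2 2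
      _ = _ := by rw [← pow_mul, mul_comm, pow_mul, Real.sq_sqrt (by positivity)]
  rw [div_pow, div_mul_eq_mul_div, div_lt_iff₀ (by positivity), ← pow_add, add_comm k] at k1
  have k4 : 1 ≤ W N₀ := le_trans (by exact_mod_cast (by omega : 1 ≤ N₀)) (hW N₀)
  have k5 : (1 + ε) ^ k ≤ W (N₀ + k) := (le_mul_of_one_le_right (by positivity) k4).trans i2
  nlinarith

end Weights

theorem eigen {H : Type*} [NormedAddCommGroup H] [InnerProductSpace ℂ H] [CompleteSpace H]
    (V W : H →L[ℂ] H) (hW : W = V.adjoint) (h1 : ∀ x, W (V x) = x) (u : ℕ → H)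
    (hu : ∀ n, u (n + 1) = V (u n)) (hn : ∀ n, ‖u n‖ = 1) (K : Set H) (hK : IsCompact K)
    (huK : ∀ n, u n ∈ K) : ∃ (c : ℂ) (x : H), x ≠ 0 ∧ W x = c • x := by
  set r : H → H →L[ℂ] H := fun x => rankOne ℂ x x
  have rc : Continuous r :=
    ((ContinuousLinearMap.smulRightL ℂ H H).continuous.comp (innerSL ℂ).continuous).clm_apply
      continuous_id
  set P : ℕ → H →L[ℂ] H := fun N => ∑ n ∈ Finset.range (N + 1), ((N : ℝ) + 1)⁻¹ • r (u n)
  have cp : IsCompact (closure (convexHull ℝ (r '' K))) :=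
    (hK.image rc).totallyBounded.convexHull.closure.isCompact_of_isClosed isClosed_closure
  obtain ⟨Q, -, φ, hφ, ht⟩ := cp.tendsto_subseq (x := P) fun N => subset_closure
    ((convex_convexHull ℝ _).sum_mem (fun _ _ => by positivity)
      (by simp only [Finset.sum_const, Finset.card_range, nsmul_eq_mul]; push_cast; field_simp)
      fun n _ => subset_convexHull ℝ _ ⟨_, huK n, rfl⟩)
  have ap : ∀ x, Tendsto (fun k => P (φ k) x) atTop (𝓝 (Q x)) := fun x =>
    ((ContinuousLinearMap.apply ℂ H x).continuous.tendsto Q).comp ht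
  have Pa : ∀ N x, P N x = ((N : ℝ) + 1)⁻¹ • ∑ n ∈ Finset.range (N + 1),
      inner ℂ (u n) x • u n := fun N x => by
    simp only [P, r, _root_.sum_apply, smul_apply, rankOne_apply, Finset.smul_sum]
  have Qc : IsCompactOperator Q := by
    refine isCompactOperator_of_tendsto ht (Eventually.of_forall fun k => ?_)
    refine (compactOperator (RingHom.id ℂ) H H).sum_mem fun n _ => ?_
    refine Submodule.smul_of_tower_mem _ _ ?_
    exact ((isCompactOperator_id (E := ℂ)).comp_clm (innerSL ℂ (u n))).clm_comp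
      (ContinuousLinearMap.toSpanSingleton ℂ (u n))
  have Qs : Q.IsSymmetric := by
    intro x y
    refine tendsto_nhds_unique ((ap x).inner tendsto_const_nhds) ?_
    refine (Tendsto.inner (𝕜 := ℂ) (tendsto_const_nhds (x := x)) (ap y)).congr fun k => ?_
    simp only [P, _root_.sum_apply, smul_apply, sum_inner, inner_sum]
    refine Finset.sum_congr rfl fun n _ => ?_
    rw [RCLike.real_smul_eq_coe_smul (K := ℂ), RCLike.real_smul_eq_coe_smul (K := ℂ),
      inner_smul_real_left, inner_smul_real_right]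
    exact congrArg _ (isSymmetric_rankOne_self (u n) x y).symm
  have Qi : ∀ x, V (Q (W x)) = Q x := by
    intro x
    have e : ∀ N, V (P N (W x)) - P N x = ((N : ℝ) + 1)⁻¹ •
        (inner ℂ (u (N + 1)) x • u (N + 1) - inner ℂ (u 0) x • u 0) := fun N => by
      rw [Pa, Pa, V.map_smul_of_tower, ← smul_sub, map_sum, ← Finset.sum_sub_distrib,
        ← Finset.sum_range_sub (fun n => inner ℂ (u n) x • u n)]
      congr 1
      refine Finset.sum_congr rfl fun n _ => ?_
      rw [map_smul, hW, ContinuousLinearMap.adjoint_inner_right, ← hu]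
    have t1 : Tendsto (fun k => V (P (φ k) (W x)) - P (φ k) x) atTop (𝓝 (V (Q (W x)) - Q x)) :=
      ((V.continuous.tendsto _).comp (ap _)).sub (ap x)
    refine sub_eq_zero.1 (tendsto_nhds_unique t1 ?_)
    have t2 : Tendsto (fun k => ((φ k : ℝ) + 1)⁻¹ * (‖x‖ + ‖x‖)) atTop (𝓝 (0 * _)) :=
      ((tendsto_inv_atTop_zero.comp (tendsto_atTop_add_const_right _ 1
        tendsto_natCast_atTop_atTop)).comp hφ.tendsto_atTop).mul_const _
    rw [zero_mul] at t2
    refine squeeze_zero_norm (fun k => ?_) t2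
    have b : ∀ n, ‖inner ℂ (u n) x • u n‖ ≤ ‖x‖ := fun n => by
      rw [norm_smul, hn, mul_one]
      simpa [hn] using norm_inner_le_norm (𝕜 := ℂ) (u n) x
    rw [e, norm_smul, Real.norm_of_nonneg (by positivity)]
    gcongr
    exact (norm_sub_le _ _).trans (add_le_add (b _) (b _))
  have Q0 : Q ≠ 0 := by
    rintro rfl
    obtain ⟨t, -, tf, ht2⟩ := hK.finite_cover_balls (e := 1 / 2) (by norm_num)
    have t1 : Tendsto (fun k => ∑ z ∈ tf.toFinset, (inner ℂ z (P (φ k) z)).re) atTop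
        (𝓝 (∑ z ∈ tf.toFinset, (inner ℂ z ((0 : H →L[ℂ] H) z)).re)) :=
      tendsto_finsetSum _ fun z _ => (Complex.continuous_re.tendsto _).comp
        (tendsto_const_nhds.inner (ap z))
    have := ge_of_tendsto' (b := 1 / 4) t1 fun k => by
      have e : ∀ z, (inner ℂ z (P (φ k) z)).re = ((φ k : ℝ) + 1)⁻¹ *
          ∑ n ∈ Finset.range (φ k + 1), ‖inner ℂ (u n) z‖ ^ 2 := fun z => by
        rw [Pa, RCLike.real_smul_eq_coe_smul (K := ℂ), inner_smul_right, inner_sum]
        simp only [inner_smul_right, Complex.coe_algebraMap, Complex.re_ofReal_mul,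
          Complex.re_sum]
        congr 1
        refine Finset.sum_congr rfl fun n _ => ?_
        rw [← inner_conj_symm z, Complex.mul_conj', ← Complex.ofReal_pow, Complex.ofReal_re]
      simp only [e]
      rw [← Finset.mul_sum, Finset.sum_comm, le_inv_mul_iff₀ (by positivity)]
      have := Finset.card_nsmul_le_sum (Finset.range (φ k + 1))
        (fun n => ∑ z ∈ tf.toFinset, ‖inner ℂ (u n) z‖ ^ 2) (1 / 4) fun n _ => by
          obtain ⟨z, z1, z2⟩ := mem_iUnion₂.1 (ht2 (huK n))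
          refine le_trans ?_ (Finset.single_le_sum (f := fun z => ‖inner ℂ (u n) z‖ ^ 2)
            (fun _ _ => by positivity) (tf.mem_toFinset.2 z1))
          have a1 := norm_inner_le_norm (𝕜 := ℂ) (u n) (u n - z)
          have a2 := norm_le_insert' (inner ℂ (u n) (u n)) (inner ℂ (u n) z)
          rw [← inner_sub_right, inner_self_eq_norm_sq_to_K, hn] at a2
          rw [Metric.mem_ball, dist_eq_norm] at z2
          rw [hn] at a1
          simp only [Complex.coe_algebraMap, Complex.ofReal_one, one_pow, norm_one] at a2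
          nlinarith
      simpa using this
    simp at this
    linarith
  rw [Ne, ← ContinuousLinearMap.eq_zero_of_forall_hasEigenvalue_eq_zero Qc Qs] at Q0
  push Not at Q0
  obtain ⟨μ, m1, m2⟩ := Q0
  haveI := ContinuousLinearMap.finite_dimensional_eigenspace Qc μ m2
  haveI : Nontrivial (Module.End.eigenspace Q.toLinearMap μ) :=
    Submodule.nontrivial_iff_ne_bot.2 m1
  have inv : ∀ x ∈ Module.End.eigenspace Q.toLinearMap μ,
      W.toLinearMap x ∈ Module.End.eigenspace Q.toLinearMap μ := fun x hx => by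
    rw [Module.End.mem_eigenspace_iff] at hx ⊢
    have := congrArg W (Qi x)
    rw [h1] at this
    change Q (W x) = μ • W x
    rw [this, ← map_smul]
    exact congrArg W hx
  obtain ⟨c, hc⟩ := Module.End.exists_eigenvalue (W.toLinearMap.restrict inv)
  obtain ⟨x, hx⟩ := hc.exists_hasEigenvector
  exact ⟨c, x, fun h => hx.2 (Subtype.ext h), congrArg Subtype.val hx.apply_eq_smul⟩

end Pool.Agent.H.MP_14d743_an
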