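import Pool.Agent.H.MP_14d743_an.A

namespace Pool.Agent.H.MP_14d743_an

open Filter Topology Set MeasureTheory

universe u

theorem limit_measure {Ω : Type*} [TopologicalSpace Ω] [T2Space Ω] [CompactSpace Ω]
    [MeasurableSpace Ω] [BorelSpace Ω] (y : ℕ → Ω) (p : ℕ → ℕ → ℝ) (N : ℕ → ℕ)
    (h0 : ∀ k n, 0 ≤ p k n) (h1 : ∀ k, ∑ n ∈ Finset.range (N k), p k n = 1) :
    ∃ (μ : Measure Ω) (_ : IsProbabilityMeasure μ) (F : Filter ℕ) (_ : F.NeBot), F ≤ atTop ∧
      ∀ φ : C(Ω, ℝ), Tendsto (fun k => ∑ n ∈ Finset.range (N k), p k n * φ (y n)) F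
        (𝓝 (∫ ω, φ ω ∂μ)) := by
  let m : ℕ → ProbabilityMeasure Ω := fun k =>
    ⟨∑ n ∈ Finset.range (N k), ENNReal.ofReal (p k n) • Measure.dirac (y n), ⟨by
      simp only [Measure.coe_finsetSum, Finset.sum_apply, Measure.smul_apply, measure_univ,
        smul_eq_mul, mul_one]
      rw [← ENNReal.ofReal_sum_of_nonneg fun n _ => h0 k n, h1, ENNReal.ofReal_one]⟩⟩
  obtain ⟨μ, -, hμ⟩ := isCompact_univ.ultrafilter_le_nhds ((Ultrafilter.of atTop).map m)
    (by simp)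
  refine ⟨μ, inferInstance, (Ultrafilter.of atTop : Ultrafilter ℕ), inferInstance,
    Ultrafilter.of_le _, fun φ => ?_⟩
  refine (ProbabilityMeasure.tendsto_iff_forall_integral_tendsto.1 hμ
    (BoundedContinuousFunction.mkOfCompact φ)).congr fun k => ?_
  change ∫ ω, φ ω ∂(∑ n ∈ Finset.range (N k), ENNReal.ofReal (p k n) • Measure.dirac (y n)) = _
  have i : ∀ n, Integrable (fun ω => φ ω) (Measure.dirac (y n)) := fun n =>
    (BoundedContinuousFunction.mkOfCompact φ).integrable _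
  rw [integral_finsetSum_measure fun n _ => (i n).smul_measure ENNReal.ofReal_ne_top]
  refine Finset.sum_congr rfl fun n _ => ?_
  rw [integral_smul_measure, integral_dirac, ENNReal.toReal_ofReal (h0 k n), smul_eq_mul]

variable {X : Type u} [NormedAddCommGroup X] [NormedSpace ℂ X]

theorem exists_J (hX : Function.Surjective (NormedSpace.inclusionInDoubleDual ℂ X))
    (y : ℕ → X) (R : ℝ) (hy : ∀ n, ‖y n‖ ≤ R) (p : ℕ → ℕ → ℝ) (N : ℕ → ℕ)
    (h0 : ∀ k n, 0 ≤ p k n) (h1 : ∀ k, ∑ n ∈ Finset.range (N k), p k n = 1) :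
    ∃ (H : Type u) (_ : NormedAddCommGroup H) (_ : InnerProductSpace ℂ H) (_ : CompleteSpace H)
      (J : (X →L[ℂ] ℂ) →L[ℂ] H) (F : Filter ℕ) (_ : F.NeBot), F ≤ atTop ∧ DenseRange J ∧
      (∀ r, IsCompact (J '' Metric.closedBall 0 r)) ∧
      ∀ f, Tendsto (fun k => ∑ n ∈ Finset.range (N k), p k n * ‖f (y n)‖ ^ 2) F
        (𝓝 (‖J f‖ ^ 2)) := by
  set Z := (Submodule.span ℂ (range y)).topologicalClosure
  haveI hZ : IsClosed (Z : Set X) := Submodule.isClosed_topologicalClosure _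
  haveI : TopologicalSpace.SeparableSpace Z :=
    (countable_range y).isSeparable.span.closure.separableSpace
  set S : Set (WeakDual ℂ (X →L[ℂ] ℂ)) := WeakDual.toStrongDual ⁻¹' Metric.closedBall 0 R ∩
    {ω | ∀ f : X →L[ℂ] ℂ, (∀ z ∈ Z, f z = 0) → ω f = 0}
  have hS : IsCompact S := by
    refine (WeakDual.isCompact_closedBall 0 R).inter_right ?_
    simp only [ofPred_forall]
    exact isClosed_iInter fun f => isClosed_iInter fun _ =>
      isClosed_eq (WeakDual.eval_continuous f) continuous_const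
  haveI : CompactSpace S := isCompact_iff_compactSpace.1 hS
  letI : MeasurableSpace S := borel S
  haveI : BorelSpace S := ⟨rfl⟩
  have bd : ∀ (ω : S) (f : X →L[ℂ] ℂ), ‖ω.1 f‖ ≤ R * ‖f‖ := fun ω f =>
    (WeakDual.toStrongDual ω.1).le_of_opNorm_le (mem_closedBall_zero_iff.1 ω.2.1) f
  have rep : ∀ ω : S, ∃ z : Z, ∀ f : X →L[ℂ] ℂ, ω.1 f = f z := fun ω => by
    obtain ⟨z, hz⟩ := hX (WeakDual.toStrongDual ω.1)
    have e : ∀ f : X →L[ℂ] ℂ, ω.1 f = f z := fun f => (DFunLike.congr_fun hz f).symm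
    refine ⟨⟨z, ?_⟩, e⟩
    by_contra c
    obtain ⟨g, hg⟩ := SeparatingDual.exists_ne_zero (R := ℂ)
      (mt (Submodule.Quotient.mk_eq_zero Z).1 c)
    refine hg ((e (g ∘L Z.mkQL)).symm.trans (ω.2.2 _ fun z hz => ?_))
    change g (Submodule.Quotient.mk z) = 0
    rw [(Submodule.Quotient.mk_eq_zero Z).2 hz, map_zero]
  have R0 : 0 ≤ R := (norm_nonneg _).trans (hy 0)
  let ev : (X →L[ℂ] ℂ) →L[ℂ] C(S, ℂ) := LinearMap.mkContinuous
    { toFun f := ⟨fun ω => ω.1 f, (WeakDual.eval_continuous f).comp continuous_subtype_val⟩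
      map_add' f g := by ext ω; exact map_add ω.1 f g
      map_smul' c f := by ext ω; exact map_smul ω.1 c f } R fun f =>
    (ContinuousMap.norm_le _ (mul_nonneg R0 (norm_nonneg f))).2 fun ω => bd ω f
  let pt : ℕ → S := fun n => ⟨StrongDual.toWeakDual (NormedSpace.inclusionInDoubleDual ℂ X (y n)),
    (mem_closedBall_zero_iff (a := NormedSpace.inclusionInDoubleDual ℂ X (y n))).2
      (((NormedSpace.inclusionInDoubleDualLi ℂ).norm_map (y n)).trans_le (hy n)), fun f hf => hf _ (Submodule.le_topologicalClosure _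
        (Submodule.subset_span ⟨n, rfl⟩))⟩
  obtain ⟨μ, hμ, F, hF, F1, F2⟩ := limit_measure pt p N h0 h1
  set J₀ := ContinuousMap.toLp 2 μ ℂ ∘L ev
  have nJ : ∀ f, ‖J₀ f‖ ^ 2 = ∫ ω : S, ‖ω.1 f‖ ^ 2 ∂μ := fun f => by
    have := ContinuousMap.inner_toLp μ (ev f) (ev f)
    simp only [Complex.mul_conj', ← Complex.ofReal_pow, integral_complex_ofReal,
      inner_self_eq_norm_sq_to_K, Complex.coe_algebraMap] at this
    exact Complex.ofReal_injective this
  have cJ : ∀ r, IsCompact (J₀ '' Metric.closedBall 0 r) := fun r => by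
    refine IsSeqCompact.isCompact fun v hv => ?_
    choose f f1 f2 using hv
    have f3 : ∀ k, ‖f k‖ ≤ r := fun k => mem_closedBall_zero_iff.1 (f1 k)
    obtain ⟨g, g1, φ, hφ, g2⟩ := WeakDual.isSeqCompact_closedBall ℂ Z 0 r
      (x := fun k => StrongDual.toWeakDual (f k ∘L Z.subtypeL)) fun k =>
        mem_closedBall_zero_iff.2 (ContinuousLinearMap.opNorm_le_bound _
          ((norm_nonneg (f k)).trans (f3 k)) fun z => (f k).le_of_opNorm_le (f3 k) z)
    obtain ⟨G, G1, G2⟩ := exists_extension_norm_eq Z (WeakDual.toStrongDual g)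
    have G3 : ‖G‖ ≤ r := G2.trans_le (mem_closedBall_zero_iff.1 g1)
    refine ⟨J₀ G, ⟨G, mem_closedBall_zero_iff.2 G3, rfl⟩, φ, hφ, ?_⟩
    have t : Tendsto (fun k => ∫ ω : S, ‖ω.1 (f (φ k) - G)‖ ^ 2 ∂μ) atTop
        (𝓝 (∫ _ : S, (0 : ℝ) ∂μ)) := by
      refine tendsto_integral_of_dominated_convergence (fun _ => (R * (r + r)) ^ 2)
        (fun k => (ev (f (φ k) - G)).continuous.norm.pow 2 |>.aestronglyMeasurable)
        (integrable_const _) (fun k => Eventually.of_forall fun ω => ?_)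
        (Eventually.of_forall fun ω => ?_)
      · rw [Real.norm_of_nonneg (by positivity)]
        gcongr
        exact (bd ω _).trans (mul_le_mul_of_nonneg_left
          ((norm_sub_le (f (φ k)) G).trans (add_le_add (f3 _) G3)) R0)
      · obtain ⟨z, hz⟩ := rep ω
        have := ((((WeakDual.eval_continuous z).tendsto g).comp g2).sub_const (G z)).norm.pow 2
        rw [G1 z] at this
        simp only [hz]
        rw [show (0 : ℝ) = ‖g z - WeakDual.toStrongDual g z‖ ^ 2 by simp]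
        refine this.congr fun k => ?_
        rw [sub_apply, G1 z]
        rfl
    rw [integral_zero] at t
    rw [tendsto_iff_norm_sub_tendsto_zero]
    have t2 := t.sqrt
    rw [Real.sqrt_zero] at t2
    refine t2.congr fun k => ?_
    rw [← nJ, Real.sqrt_sq (norm_nonneg _), map_sub, f2]
    rfl
  set H := J₀.range.topologicalClosure
  have mem : ∀ f, J₀ f ∈ H := fun f => Submodule.le_topologicalClosure _ ⟨f, rfl⟩
  refine ⟨H, inferInstance, inferInstance, inferInstance, J₀.codRestrict H mem, F, hF, F1, ?_,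
    fun r => ?_, fun f => ?_⟩
  · rw [DenseRange, Subtype.dense_iff, ← range_comp]
    exact subset_rfl
  · rw [Subtype.isCompact_iff, image_image]
    exact cJ r
  · have := F2 ⟨fun ω => ‖ω.1 f‖ ^ 2, (ev f).continuous.norm.pow 2⟩
    change Tendsto _ _ (𝓝 (‖J₀ f‖ ^ 2))
    rw [nJ]
    exact this

theorem eigen2 (hX : Function.Surjective (NormedSpace.inclusionInDoubleDual ℂ X))
    (T : X →L[ℂ] X) {H : Type*} [NormedAddCommGroup H] [InnerProductSpace ℂ H] [CompleteSpace H]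
    (J : (X →L[ℂ] ℂ) →L[ℂ] H) (hd : DenseRange J) (hc : ∀ r, IsCompact (J '' Metric.closedBall 0 r))
    (hi : ∀ f, ‖J (f ∘L T)‖ = ‖J f‖) (f₀ : X →L[ℂ] ℂ) (h0 : J f₀ ≠ 0)
    (Y : Submodule ℂ X) (hY : ∀ y, (∃ C, ∀ n, ‖(T ^ n) y‖ ≤ C) → y ∈ Y)
    (C : ℝ) (hC : ∀ n, ‖(T ^ n) ∘L Y.subtypeL‖ ≤ C) :
    ∃ (c : ℂ) (x : X), x ≠ 0 ∧ T x = c • x := by
  let A : (X →L[ℂ] ℂ) →L[ℂ] (X →L[ℂ] ℂ) := (ContinuousLinearMap.compL ℂ X X ℂ).flip T
  have b1 : ∀ f, ‖(J ∘L A).toLinearMap f‖ ≤ 1 * ‖J.toLinearMap f‖ := fun f => by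
    rw [one_mul]; exact (hi f).le
  set V : H →L[ℂ] H := (J ∘L A).toLinearMap.extendOfNorm J.toLinearMap
  have hV : ∀ f, V (J f) = J (f ∘L T) := LinearMap.extendOfNorm_eq hd ⟨1, b1⟩
  have nV : ∀ h, ‖V h‖ = ‖h‖ := fun h => hd.induction_on (p := fun h => ‖V h‖ = ‖h‖) h
    (isClosed_eq (by fun_prop) (by fun_prop)) fun f => by rw [hV, hi]
  set W := V.adjoint
  have WV : ∀ h, W (V h) = h := fun h =>
    DFunLike.congr_fun ((ContinuousLinearMap.norm_map_iff_adjoint_comp_self V).1 nV) h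
  have nW : ∀ h, ‖W h‖ ≤ ‖h‖ := fun h => by
    have : ‖W‖ ≤ 1 := by
      rw [LinearIsometryEquiv.norm_map]
      exact V.opNorm_le_bound zero_le_one fun h => by rw [nV, one_mul]
    simpa using W.le_of_opNorm_le this h
  choose ξ hξ using fun h : H => hX (innerSL ℂ h ∘L J)
  have e : ∀ h (f : X →L[ℂ] ℂ), f (ξ h) = inner ℂ h (J f) := fun h f => DFunLike.congr_fun (hξ h) f
  have ξT : ∀ h, T (ξ h) = ξ (W h) := fun h => by
    refine (SeparatingDual.eq_iff_forall_dual_eq (R := ℂ)).2 fun f => ?_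
    rw [e, ContinuousLinearMap.adjoint_inner_left, hV, ← e]
    rfl
  have ξn : ∀ h, ‖ξ h‖ ≤ ‖h‖ * ‖J‖ := fun h => by
    rw [← (NormedSpace.inclusionInDoubleDualLi ℂ).norm_map (ξ h)]
    change ‖NormedSpace.inclusionInDoubleDual ℂ X (ξ h)‖ ≤ _
    rw [hξ, ← innerSL_apply_norm ℂ h]
    exact ContinuousLinearMap.opNorm_comp_le _ _
  have ξY : ∀ h, ξ h ∈ Y := fun h => by
    refine hY _ ⟨‖h‖ * ‖J‖, fun n => ?_⟩
    induction n generalizing h with
    | zero => exact ξn h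
    | succ n ih =>
      rw [pow_succ, mul_apply_eq_comp, ξT]
      exact (ih _).trans (mul_le_mul_of_nonneg_right (nW h) (norm_nonneg J))
  have n0 : 0 < ‖J f₀‖ := norm_pos_iff.2 h0
  set s : ℂ := ((‖J f₀‖⁻¹ : ℝ) : ℂ)
  have hu : ∀ n, J ((s • f₀) ∘L T ^ (n + 1)) = V (J ((s • f₀) ∘L T ^ n)) := fun n => by
    rw [hV, pow_succ]; rfl
  obtain ⟨c, h, h1, h2⟩ := eigen V W rfl WV (fun n => J ((s • f₀) ∘L T ^ n)) hu
    (fun n => by
      induction n with
      | zero =>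
        change ‖J (s • f₀)‖ = 1
        rw [map_smul, norm_smul, Complex.norm_real, norm_inv, norm_norm, inv_mul_cancel₀ n0.ne']
      | succ n ih => rw [hu, nV, ih]) _ (hc (‖s • f₀‖ * C)) fun n => by
      obtain ⟨G, G1, G2⟩ := exists_extension_norm_eq Y ((s • f₀) ∘L (T ^ n) ∘L Y.subtypeL)
      refine ⟨G, mem_closedBall_zero_iff.2 (G2.trans_le
        ((ContinuousLinearMap.opNorm_comp_le _ _).trans
          (mul_le_mul_of_nonneg_left (hC n) (norm_nonneg (s • f₀))))), ?_⟩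
      refine ext_inner_left ℂ fun h => ?_
      rw [← e, ← e]
      exact G1 ⟨_, ξY h⟩
  refine ⟨(starRingEnd ℂ) c, ξ h, fun z => h1 ?_, ?_⟩
  · refine hd.eq_zero_of_inner_left (𝕜 := ℂ) fun f => ?_
    rw [← e, z, map_zero]
  · refine (SeparatingDual.eq_iff_forall_dual_eq (R := ℂ)).2 fun f => ?_
    rw [ξT, h2, map_smul, e, e, inner_smul_left, smul_eq_mul]

end Pool.Agent.H.MP_14d743_an
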